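import Pool.Agent.Lib.MP_43d240_ag.FZ.H72.Jac
import Pool.Agent.Lib.MP_43d240_ag.FZ.H72.Ker
import Pool.Agent.Lib.MP_43d240_ag.FZ.H72.Model
import Pool.Agent.Lib.MP_43d240_ag.FZ.H10.Nca
import Pool.Agent.Lib.MP_43d240_ag.FZ.H10.Nsq
import Pool.Agent.Lib.MP_43d240_ag.FZ.H30.Ksq
import Pool.Agent.Lib.MP_43d240_ag.FZ.H30.Rows
import Pool.Agent.Lib.MP_43d240_ag.FZ.H38.Span
import Pool.Agent.Lib.MP_43d240_ag.FZ.H39.Gpa
import Pool.Agent.Lib.MP_43d240_ag.FZ.H39.NulUni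
import Pool.Agent.Lib.MP_43d240_ag.FZ.H65.Frac
import Pool.Agent.Lib.MP_43d240_ag.FZ.H91.Dim
import Pool.Agent.Lib.MP_43d240_ag.FZ.H91.Kum
import Pool.Agent.Lib.MP_43d240_ag.H21.Model

/-!
PROJECT PI, frozen side, chapter F2b: the model, without hypotheses.
-/

namespace Pool.Agent.PI.FZ

theorem smo : SMO_S := H72.smo H72.jac H30.rows (H72.ker H91.kum H38.span H30.ksq H39.nul)

theorem modelStatement : Pool.Agent.Lib.MP_43d240_ag.H21.ModelStatement :=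
  H72.model H39.gpa H10.nca H10.nsq H39.ind smo H91.dim H65.frac H39.uni

end Pool.Agent.PI.FZ
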