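import Mathlib

/-!
PROJECT PI (MP_43d240_ag), frozen side, chapter F2b: CHART ALGEBRA (owner helper72).

Everything is stated for abstract fields; every `..._S` is the statement of one module
(theorem `<mod>` : `<MOD>_S`, file `FZ/H<nn>/<Mod>.lean`).  See `FZ/Blueprint.md`.
-/

namespace Pool.Agent.PI.FZ

open MvPolynomial

/-- General position: at every point the gradients of the members of the family that vanish
there are linearly independent. -/
def GP {k ι σ : Type} [Field k] (g : ι → MvPolynomial σ k) : Prop :=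
  ∀ P : σ → k, LinearIndependent k
    (fun (i : {i : ι // eval P (g i) = 0}) (v : σ) => eval P (pderiv v (g i.1)))

/-- General position away from the origin (for forms). -/
def GPh {k ι σ : Type} [Field k] (f : ι → MvPolynomial σ k) : Prop :=
  ∀ P : σ → k, P ≠ 0 → LinearIndependent k
    (fun (i : {i : ι // eval P (f i) = 0}) (v : σ) => eval P (pderiv v (f i.1)))

/-- Setting the `a`-th coordinate equal to one. -/
noncomputable def dh {k : Type} [Field k] (a : Fin 4) :
    MvPolynomial (Fin 4) k →ₐ[k] MvPolynomial (Fin 3) k :=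
  aeval (a.insertNth (1 : MvPolynomial (Fin 3) k) (fun b => (X b : MvPolynomial (Fin 3) k)))

/-- The indices of the square roots in the chart `lam`. -/
abbrev Idx {J Λ : Type} (lam : J → Λ) : Type := {p : J × Λ // p.2 ≠ lam p.1}

/-- The relation `g_(j, lam j) ρ_(j,l)^2 - g_(j,l)`. -/
noncomputable def rel {k J Λ : Type} [Field k] (g : J → Λ → MvPolynomial (Fin 3) k)
    (lam : J → Λ) (i : Idx lam) : MvPolynomial (Fin 3 ⊕ Idx lam) k :=
  rename Sum.inl (g i.1.1 (lam i.1.1)) * X (Sum.inr i) ^ 2 - rename Sum.inl (g i.1.1 i.1.2)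

/-- The ideal of the relations. -/
noncomputable def Rel {k J Λ : Type} [Field k] (g : J → Λ → MvPolynomial (Fin 3) k)
    (lam : J → Λ) : Ideal (MvPolynomial (Fin 3 ⊕ Idx lam) k) :=
  Ideal.span (Set.range (rel g lam))

/-- No product of members of a nonempty subfamily is a square in the fraction field. -/
def NSq {k ι : Type} [Field k] (g : ι → MvPolynomial (Fin 3) k) : Prop :=
  ∀ w : Finset ι, w.Nonempty →
    ∀ p q : MvPolynomial (Fin 3) k, q ≠ 0 → (∏ i ∈ w, g i) * q ^ 2 ≠ p ^ 2

/-- The data of a chart: a point `x` of `L^3` generic over `k`, the polynomials `g_(j,l)`, and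
elements `r_(j,l)` of `L` with `r_(j,l)^2 = g_(j,l)(x) / g_(j, lam j)(x)`. -/
structure IsChart {k L J Λ : Type} [Field k] [Field L] [Algebra k L]
    (x : Fin 3 → L) (g : J → Λ → MvPolynomial (Fin 3) k) (lam : J → Λ) (r : J → Λ → L) :
    Prop where
  alg : AlgebraicIndependent k x
  gp : GP (fun p : J × Λ => g p.1 p.2)
  nsq : NSq (fun p : J × Λ => g p.1 p.2)
  one : ∀ j, r j (lam j) = 1
  sq : ∀ j l, r j l ^ 2 * aeval x (g j (lam j)) = aeval x (g j l)

/-- The chart algebra, a subalgebra of `L`. -/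
noncomputable def chartAlg (k : Type) {L J Λ : Type} [Field k] [Field L] [Algebra k L]
    (x : Fin 3 → L) (r : J → Λ → L) : Subalgebra k L :=
  Algebra.adjoin k (Set.range x ∪ Set.range (fun p : J × Λ => r p.1 p.2))

/-! ### General modules -/

/-- KUM. Kummer theory for square roots: `r_i^2 ∈ F`, no product over a nonempty subset of `s` is
in `F`; then the products are linearly independent over `F`. -/
def KUM_S : Prop :=
  ∀ (L ι : Type) [Field L] [DecidableEq ι] (F : Subfield L), (2 : L) ≠ 0 →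
    ∀ (r : ι → L) (s : Finset ι), (∀ i ∈ s, r i ^ 2 ∈ F) →
      (∀ w ⊆ s, w.Nonempty → ∏ i ∈ w, r i ∉ F) →
      ∀ c : Finset ι → L, (∀ w, c w ∈ F) → ∑ w ∈ s.powerset, c w * ∏ i ∈ w, r i = 0 →
        ∀ w ⊆ s, c w = 0

/-- JAC. The Jacobian criterion of smoothness, checked at the closed points. -/
def JAC_S : Prop :=
  ∀ (k σ ι : Type) [Field k] [IsAlgClosed k] [Finite σ] [Finite ι]
    (F : ι → MvPolynomial σ k),
    (∀ P : σ → k, (∀ i, eval P (F i) = 0) →
      LinearIndependent k (fun (i : ι) (v : σ) => eval P (pderiv v (F i)))) →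
    Algebra.Smooth k (MvPolynomial σ k ⧸ Ideal.span (Set.range F))

/-- NSQ. General position and no constants: no product is a square. -/
def NSQ_S : Prop :=
  ∀ (k ι : Type) [Field k] [IsAlgClosed k], (2 : k) ≠ 0 →
    ∀ g : ι → MvPolynomial (Fin 3) k, GP g → (∀ i, ¬ IsUnit (g i)) → NSq g

/-- GPA. Dehomogenisation keeps general position (Euler's relation). -/
def GPA_S : Prop :=
  ∀ (k ι : Type) [Field k] (d : ℕ), (d : k) ≠ 0 →
    ∀ f : ι → MvPolynomial (Fin 4) k, (∀ i, (f i).IsHomogeneous d) → GPh f →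
      ∀ a : Fin 4, GP (fun i => dh a (f i))

/-- NCA. The dehomogenised forms are not constant. -/
def NCA_S : Prop :=
  ∀ (k ι : Type) [Field k] (d : ℕ), 2 ≤ d →
    ∀ f : ι → MvPolynomial (Fin 4) k, (∀ i, (f i).IsHomogeneous d) → GPh f →
      ∀ (a : Fin 4) (i : ι), ¬ IsUnit (dh a (f i))

/-- IND. Independence of the affine coordinates of every chart. -/
def IND_S : Prop :=
  ∀ (k L : Type) [Field k] [Field L] [Algebra k L] (x : Fin 4 → L), x 0 = 1 →
    AlgebraicIndependent k (fun b : Fin 3 => x b.succ) →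
      ∀ a : Fin 4, AlgebraicIndependent k (fun b : Fin 3 => x (a.succAbove b) / x a)

/-! ### Modules about a chart -/

section

variable {k L J Λ : Type} [Field k] [Field L] [Algebra k L]

/-- NUL. The members of one block generate the unit ideal. -/
def NUL_S : Prop :=
  ∀ (k J Λ : Type) [Field k] [IsAlgClosed k] [Fintype Λ], 3 < Fintype.card Λ →
    ∀ g : J → Λ → MvPolynomial (Fin 3) k, GP (fun p : J × Λ => g p.1 p.2) →
      ∀ j, ∃ c : Λ → MvPolynomial (Fin 3) k, ∑ l, c l * g j l = 1

/-- ROWS. The Jacobian matrix of the relations has full rank at every point. -/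
def ROWS_S : Prop :=
  ∀ (k J Λ : Type) [Field k] [IsAlgClosed k], (2 : k) ≠ 0 →
    ∀ [Fintype J] [Fintype Λ] [DecidableEq J] [DecidableEq Λ], 3 < Fintype.card Λ →
    ∀ (g : J → Λ → MvPolynomial (Fin 3) k) (lam : J → Λ), GP (fun p : J × Λ => g p.1 p.2) →
      ∀ P : Fin 3 ⊕ Idx lam → k, (∀ i, eval P (rel g lam i) = 0) →
        LinearIndependent k (fun (i : Idx lam) (v : Fin 3 ⊕ Idx lam) =>
          eval P (pderiv v (rel g lam i)))

/-- SPAN. Modulo the relations and up to powers of `∏ g_(j, lam j)` every polynomial is a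
combination of squarefree monomials in the `ρ`. -/
def SPAN_S : Prop :=
  ∀ (k J Λ : Type) [Field k] [Fintype J] [Fintype Λ] [DecidableEq J] [DecidableEq Λ]
    (g : J → Λ → MvPolynomial (Fin 3) k) (lam : J → Λ)
    (p : MvPolynomial (Fin 3 ⊕ Idx lam) k),
    ∃ (N : ℕ) (c : Finset (Idx lam) → MvPolynomial (Fin 3) k),
      rename Sum.inl (∏ j, g j (lam j)) ^ N * p
        - ∑ w, rename Sum.inl (c w) * ∏ i ∈ w, X (Sum.inr i) ∈ Rel g lam

/-- KSQ. In a chart no product of the `r_(j,l)` (`l ≠ lam j`) over a nonempty set is in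
`k(x)`. -/
def KSQ_S : Prop :=
  ∀ (k L J Λ : Type) [Field k] [Field L] [Algebra k L] [Fintype J] [Fintype Λ]
    [DecidableEq J] [DecidableEq Λ]
    (x : Fin 3 → L) (g : J → Λ → MvPolynomial (Fin 3) k) (lam : J → Λ) (r : J → Λ → L),
    IsChart x g lam r → ∀ w : Finset (Idx lam), w.Nonempty →
      ∏ i ∈ w, r i.1.1 i.1.2 ∉ IntermediateField.adjoin k (Set.range x)

/-- KER. The ideal of the relations is the kernel of the evaluation at `(x, r)`. -/
def KER_S : Prop :=
  ∀ (k L J Λ : Type) [Field k] [IsAlgClosed k] [Field L] [Algebra k L] [Fintype J] [Fintype Λ]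
    [DecidableEq J] [DecidableEq Λ], (2 : k) ≠ 0 → 3 < Fintype.card Λ →
    ∀ (x : Fin 3 → L) (g : J → Λ → MvPolynomial (Fin 3) k) (lam : J → Λ) (r : J → Λ → L),
    IsChart x g lam r →
      RingHom.ker (aeval (R := k) (Sum.elim x (fun i : Idx lam => r i.1.1 i.1.2))) = Rel g lam

/-- SMO. The chart algebra is smooth. -/
def SMO_S : Prop :=
  ∀ (k L J Λ : Type) [Field k] [IsAlgClosed k] [Field L] [Algebra k L] [Fintype J] [Fintype Λ]
    [DecidableEq J] [DecidableEq Λ], (2 : k) ≠ 0 → 3 < Fintype.card Λ →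
    ∀ (x : Fin 3 → L) (g : J → Λ → MvPolynomial (Fin 3) k) (lam : J → Λ) (r : J → Λ → L),
    IsChart x g lam r → Algebra.Smooth k (chartAlg k x r)

/-- UNI. `g_(j, lam j)(x)` is invertible in the chart algebra. -/
def UNI_S : Prop :=
  ∀ (k L J Λ : Type) [Field k] [IsAlgClosed k] [Field L] [Algebra k L] [Fintype Λ],
    3 < Fintype.card Λ →
    ∀ (x : Fin 3 → L) (g : J → Λ → MvPolynomial (Fin 3) k) (lam : J → Λ) (r : J → Λ → L),
    IsChart x g lam r → ∀ j, aeval x (g j (lam j)) ≠ 0 ∧ aeval x (g j (lam j)) ∈ chartAlg k x r ∧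
      (aeval x (g j (lam j)))⁻¹ ∈ chartAlg k x r

/-- DIM. The chart algebra has dimension three. -/
def DIM_S : Prop :=
  ∀ (k L J Λ : Type) [Field k] [IsAlgClosed k] [Field L] [Algebra k L] [Fintype J] [Fintype Λ]
    [DecidableEq J] [DecidableEq Λ], 3 < Fintype.card Λ →
    ∀ (x : Fin 3 → L) (g : J → Λ → MvPolynomial (Fin 3) k) (lam : J → Λ) (r : J → Λ → L),
    IsChart x g lam r → ringKrullDim (chartAlg k x r) = 3

/-- FRAC. If `x` and the `r` generate the field `L`, then `L` is the fraction field of the chart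
algebra. -/
def FRAC_S : Prop :=
  ∀ (k L J Λ : Type) [Field k] [Field L] [Algebra k L] (x : Fin 3 → L) (r : J → Λ → L),
    IntermediateField.adjoin k (Set.range x ∪ Set.range (fun p : J × Λ => r p.1 p.2)) = ⊤ →
      IsFractionRing (chartAlg k x r) L

end

/-! ### The model -/

/-- MODEL. The output of chapter F2b: a field `K`, finite over the rational function field in
three variables, generated by the square roots `u_(j,l)` of `g_(j,0) g_(j,l)`, and generators
`y_i` of an embedding all whose charts `k[y_j / y_i]` are smooth of dimension three with fraction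
field `K`; the elements `g_(j,0)` are unit times square in every chart. -/
def MODEL_S : Prop :=
  ∀ (k : Type) [Field k] [IsAlgClosed k] [CharZero k] (d : ℕ), 2 ≤ d → Even d →
    ∀ f : Fin 6 → Fin 4 → MvPolynomial (Fin 4) k, (∀ j l, (f j l).IsHomogeneous d) →
      GPh (fun p : Fin 6 × Fin 4 => f p.1 p.2) →
    ∃ (K : Type) (_ : Field K) (_ : Algebra k K)
      (_ : Algebra (FractionRing (MvPolynomial (Fin 3) k)) K)
      (_ : IsScalarTower k (FractionRing (MvPolynomial (Fin 3) k)) K)
      (u : Fin 6 → Fin 4 → K) (M : ℕ) (y : Fin (M + 1) → K),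
      (∀ j l, u j l ^ 2 = algebraMap (FractionRing (MvPolynomial (Fin 3) k)) K
        (algebraMap (MvPolynomial (Fin 3) k) _ (dh 0 (f j 0) * dh 0 (f j l)))) ∧
      IntermediateField.adjoin (FractionRing (MvPolynomial (Fin 3) k))
        (Set.range (fun p : Fin 6 × Fin 4 => u p.1 p.2)) = ⊤ ∧
      (∀ i, y i ≠ 0) ∧
      (∀ i, Algebra.Smooth k (Algebra.adjoin k (Set.range fun j => y j / y i))) ∧
      (∀ i, ringKrullDim (Algebra.adjoin k (Set.range fun j => y j / y i)) = 3) ∧
      (∀ i, IsFractionRing (Algebra.adjoin k (Set.range fun j => y j / y i)) K) ∧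
      (∀ i j, ∃ v : K, v ≠ 0 ∧ v ∈ Algebra.adjoin k (Set.range fun j => y j / y i) ∧
        v⁻¹ ∈ Algebra.adjoin k (Set.range fun j => y j / y i) ∧
        ∃ c : K, c ≠ 0 ∧ algebraMap (FractionRing (MvPolynomial (Fin 3) k)) K
          (algebraMap (MvPolynomial (Fin 3) k) _ (dh 0 (f j 0))) = v * c ^ 2)

end Pool.Agent.PI.FZ
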